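import Pool.Agent.Helper17.R5.Sheet
import Pool.Agent.Helper15.HallDiv

/-! # The number of forms with a witness (row CNT) -/

set_option autoImplicit false

namespace Pool.Helper17.R5

open Pool.Agent.Helper15.Hall (card_divisors_le_uniform)

/-- the exponent of a positive number -/
theorem exp4 {Q M : ℤ} (h1 : 1 ≤ Q) (h2 : Q ≤ M) :
    (4 : ℤ) ^ Nat.log 4 Q.toNat ≤ Q ∧ Q < 4 ^ (Nat.log 4 Q.toNat + 1) ∧
      Nat.log 4 Q.toNat < Nat.log 4 M.toNat + 1 := by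
  have e : ((Q.toNat : ℕ) : ℤ) = Q := Int.toNat_of_nonneg (by omega)
  have hQ : Q.toNat ≠ 0 := by omega
  refine ⟨?_, ?_, ?_⟩
  · have h := Nat.pow_log_le_self 4 hQ
    have h' : (((4 : ℕ) ^ Nat.log 4 Q.toNat : ℕ) : ℤ) ≤ ((Q.toNat : ℕ) : ℤ) := by exact_mod_cast h
    rw [e] at h'
    exact_mod_cast h'
  · have h := Nat.lt_pow_succ_log_self (b := 4) (by norm_num) Q.toNat
    have h' : ((Q.toNat : ℕ) : ℤ) < (((4 : ℕ) ^ (Nat.log 4 Q.toNat + 1) : ℕ) : ℤ) := by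
      exact_mod_cast h
    rw [e] at h'
    exact_mod_cast h'
  · exact Nat.lt_succ_of_le (Nat.log_mono_right (Int.toNat_le_toNat h2))

/-- growth of the number of classes -/
theorem classes_le {η : ℝ} (hη : 0 < η) (K : ℤ) : ∃ C : ℝ, 0 < C ∧ ∀ n : ℕ, 1 ≤ n →
    ((Nat.log 4 (K * (n : ℤ) ^ 2).toNat + 1 : ℕ) : ℝ) ≤ C * (n : ℝ) ^ (2 * η) := by
  set k : ℝ := max 1 (K : ℝ) with hk
  have hk1 : 1 ≤ k := le_max_left _ _
  have hk0 : 0 ≤ k := by linarith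
  refine ⟨k ^ η / η + 1, by positivity, fun n hn => ?_⟩
  have hn1 : (1 : ℝ) ≤ n := by exact_mod_cast hn
  have hn0 : (0 : ℝ) ≤ n := by linarith
  have hp1 : (1 : ℝ) ≤ (n : ℝ) ^ (2 * η) := Real.one_le_rpow hn1 (by linarith)
  set M := (K * (n : ℤ) ^ 2).toNat with hM
  push_cast
  have hlog : (Nat.log 4 M : ℝ) ≤ k ^ η / η * (n : ℝ) ^ (2 * η) := by
    rcases Nat.eq_zero_or_pos M with h0 | h0
    · rw [h0]
      simp only [Nat.log_zero_right, Nat.cast_zero]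
      positivity
    · have hMr : (1 : ℝ) ≤ (M : ℝ) := by exact_mod_cast h0
      have hMk : (M : ℝ) ≤ k * (n : ℝ) ^ 2 := by
        have h1 : ((M : ℕ) : ℤ) = K * (n : ℤ) ^ 2 := by
          rw [hM]
          exact Int.toNat_of_nonneg (by omega)
        have h2 : (M : ℝ) = (K : ℝ) * (n : ℝ) ^ 2 := by exact_mod_cast congrArg (Int.cast (R := ℝ)) h1
        rw [h2]
        exact mul_le_mul_of_nonneg_right (le_max_right _ _) (by positivity)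
      have h3 : (Nat.log 4 M : ℝ) ≤ Real.logb (4 : ℕ) (M : ℝ) := Real.natLog_le_logb M 4
      have h4 : Real.logb (4 : ℕ) (M : ℝ) ≤ Real.log M := by
        unfold Real.logb
        have h5 : (1 : ℝ) ≤ Real.log (4 : ℕ) := by
          rw [Real.le_log_iff_exp_le (by norm_num)]
          have := Real.exp_one_lt_d9
          push_cast
          linarith
        exact div_le_self (Real.log_nonneg hMr) h5
      have h6 : Real.log M ≤ (M : ℝ) ^ η / η := Real.log_le_rpow_div (by linarith) hη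
      have h7 : (M : ℝ) ^ η ≤ k ^ η * (n : ℝ) ^ (2 * η) := by
        have h8 : (M : ℝ) ^ η ≤ (k * (n : ℝ) ^ 2) ^ η :=
          Real.rpow_le_rpow (by linarith) hMk hη.le
        rw [Real.mul_rpow hk0 (by positivity), ← Real.rpow_natCast (n : ℝ) 2,
          ← Real.rpow_mul hn0] at h8
        exact_mod_cast h8
      calc (Nat.log 4 M : ℝ) ≤ (M : ℝ) ^ η / η := h3.trans (h4.trans h6)
        _ ≤ k ^ η * (n : ℝ) ^ (2 * η) / η := div_le_div_of_nonneg_right h7 hη.le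
        _ = k ^ η / η * (n : ℝ) ^ (2 * η) := by ring
  linarith

/-- **row CNT** -/
theorem st_CNT (h : ST_CNT1) : ST_CNT := by
  classical
  intro va vb vi vj vk d1 d2 d3 ε hε K
  obtain ⟨C, hC⟩ := h va vb vi vj vk d1 d2 d3 K
  obtain ⟨C1, hC1, hdiv⟩ := card_divisors_le_uniform (ε / 16) (by positivity)
  obtain ⟨C2, hC2, hcl⟩ := classes_le (η := ε / 20) (by positivity) K
  set c : ℝ := max 1 (C : ℝ) with hc
  have hc1 : 1 ≤ c := le_max_left _ _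
  have hcC : (C : ℝ) ≤ c := le_max_right _ _
  have hC1' : 0 < C1 := by linarith
  set D : ℝ := C2 ^ 5 * (c * (C1 * c ^ (ε / 16)) ^ 4) with hD
  refine ⟨D, by positivity, fun n hn => ?_⟩
  have hn1 : (1 : ℝ) ≤ n := by exact_mod_cast hn
  have hn0 : (0 : ℝ) < n := by linarith
  -- the number of divisors
  set τ : ℕ := ⌊C1 * ((C * n ^ 2 : ℕ) : ℝ) ^ (ε / 16)⌋₊ with hτ
  have hτd : ∀ m : ℕ, 1 ≤ m → m ≤ C * n ^ 2 → m.divisors.card ≤ τ := fun m hm1 hm2 =>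
    Nat.le_floor (hdiv (C * n ^ 2) m (by omega) hm2)
  have hτr : (τ : ℝ) ≤ C1 * c ^ (ε / 16) * (n : ℝ) ^ (ε / 8) := by
    have h1 : (τ : ℝ) ≤ C1 * ((C * n ^ 2 : ℕ) : ℝ) ^ (ε / 16) := Nat.floor_le (by positivity)
    have h2 : ((C * n ^ 2 : ℕ) : ℝ) ^ (ε / 16) ≤ c ^ (ε / 16) * (n : ℝ) ^ (ε / 8) := by
      have h3 : ((C * n ^ 2 : ℕ) : ℝ) ≤ c * (n : ℝ) ^ 2 := by
        push_cast
        exact mul_le_mul_of_nonneg_right hcC (by positivity)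
      have h4 := Real.rpow_le_rpow (z := ε / 16) (by positivity) h3 (by positivity)
      rw [Real.mul_rpow (by linarith) (by positivity), ← Real.rpow_natCast (n : ℝ) 2,
        ← Real.rpow_mul hn0.le] at h4
      have e : ((2 : ℕ) : ℝ) * (ε / 16) = ε / 8 := by push_cast; ring
      rwa [e] at h4
    calc (τ : ℝ) ≤ C1 * ((C * n ^ 2 : ℕ) : ℝ) ^ (ε / 16) := h1
      _ ≤ C1 * (c ^ (ε / 16) * (n : ℝ) ^ (ε / 8)) := mul_le_mul_of_nonneg_left h2 hC1'.le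
      _ = _ := by ring
  have hcls := hC n hn τ hτd
  set E := Nat.log 4 (K * (n : ℤ) ^ 2).toNat + 1 with hE
  let cl : ℕ × ℕ × ℕ × ℕ × ℕ → Set TF := fun e => {N : TF | ∃ Qa Qb Qi Qj Qk : ℤ,
    ((4 : ℤ) ^ e.1 ≤ Qa ∧ Qa < 4 ^ (e.1 + 1)) ∧
    ((4 : ℤ) ^ e.2.1 ≤ Qb ∧ Qb < 4 ^ (e.2.1 + 1)) ∧
    ((4 : ℤ) ^ e.2.2.1 ≤ Qi ∧ Qi < 4 ^ (e.2.2.1 + 1)) ∧
    ((4 : ℤ) ^ e.2.2.2.1 ≤ Qj ∧ Qj < 4 ^ (e.2.2.2.1 + 1)) ∧
    ((4 : ℤ) ^ e.2.2.2.2 ≤ Qk ∧ Qk < 4 ^ (e.2.2.2.2 + 1)) ∧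
    Wit K n va vb vi vj vk N Qa Qb Qi Qj Qk}
  have hclf : ∀ e, (cl e).Finite ∧ (cl e).ncard ≤ C * τ ^ 4 * n ^ 5 := fun e =>
    hcls e.1 e.2.1 e.2.2.1 e.2.2.2.1 e.2.2.2.2
  let R := Finset.range E
  let I : Finset (ℕ × ℕ × ℕ × ℕ × ℕ) := R ×ˢ (R ×ˢ (R ×ˢ (R ×ˢ R)))
  have hI : I.card = E ^ 5 := by
    simp only [I, R, Finset.card_product, Finset.card_range]
    ring
  have hsub : {N : TF | ∃ Qa Qb Qi Qj Qk : ℤ, Wit K n va vb vi vj vk N Qa Qb Qi Qj Qk} ⊆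
      ⋃ e ∈ I, cl e := by
    rintro N ⟨Qa, Qb, Qi, Qj, Qk, hw⟩
    have hw' := hw
    obtain ⟨α, β, γ, D', κ, rb, rb', pi, pi', ri, ri', pj, pj', rj, rj', pk, pk', rk, rk', -, -, -,
      -, -, -, -, -, -, -, -, -, ⟨q0, q1, q2, q3, q4⟩, ⟨b1, b2, b3, b4⟩⟩ := hw
    obtain ⟨a1, a2, a3⟩ := exp4 q0 (q1.trans b1)
    obtain ⟨a4, a5, a6⟩ := exp4 (q0.trans q1) b1
    obtain ⟨a7, a8, a9⟩ := exp4 (q0.trans q2) b2
    obtain ⟨a10, a11, a12⟩ := exp4 (q0.trans q3) b3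
    obtain ⟨a13, a14, a15⟩ := exp4 (q0.trans q4) b4
    rw [Set.mem_iUnion₂]
    refine ⟨(Nat.log 4 Qa.toNat, Nat.log 4 Qb.toNat, Nat.log 4 Qi.toNat, Nat.log 4 Qj.toNat,
      Nat.log 4 Qk.toNat), ?_, Qa, Qb, Qi, Qj, Qk, ⟨a1, a2⟩, ⟨a4, a5⟩, ⟨a7, a8⟩, ⟨a10, a11⟩,
      ⟨a13, a14⟩, hw'⟩
    simp only [I, R, Finset.mem_product, Finset.mem_range]
    exact ⟨a3, a6, a9, a12, a15⟩
  have hfin : (⋃ e ∈ I, cl e).Finite :=
    Set.Finite.biUnion I.finite_toSet fun e _ => (hclf e).1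
  refine ⟨hfin.subset hsub, ?_⟩
  have hcard : ({N : TF | ∃ Qa Qb Qi Qj Qk : ℤ,
      Wit K n va vb vi vj vk N Qa Qb Qi Qj Qk}).ncard ≤ E ^ 5 * (C * τ ^ 4 * n ^ 5) := by
    refine (Set.ncard_le_ncard hsub hfin).trans ((Finset.set_ncard_biUnion_le I cl).trans ?_)
    refine (Finset.sum_le_card_nsmul I _ _ fun e _ => (hclf e).2).trans ?_
    rw [hI, smul_eq_mul]
  have hEr : (E : ℝ) ≤ C2 * (n : ℝ) ^ (ε / 10) := by
    have h1 := hcl n hn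
    have e : 2 * (ε / 20) = ε / 10 := by ring
    rw [e] at h1
    exact h1
  have h5 : ((n : ℝ) ^ (ε / 10)) ^ 5 = (n : ℝ) ^ (ε / 2) := by
    rw [← Real.rpow_natCast, ← Real.rpow_mul hn0.le]
    congr 1
    push_cast
    ring
  have h8 : ((n : ℝ) ^ (ε / 8)) ^ 4 = (n : ℝ) ^ (ε / 2) := by
    rw [← Real.rpow_natCast, ← Real.rpow_mul hn0.le]
    congr 1
    push_cast
    ring
  have hexp : (n : ℝ) ^ (ε / 2) * ((n : ℝ) ^ (ε / 2) * (n : ℝ) ^ 5) = (n : ℝ) ^ (5 + ε) := by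
    rw [← Real.rpow_natCast (n : ℝ) 5, ← Real.rpow_add hn0, ← Real.rpow_add hn0]
    congr 1
    push_cast
    ring
  calc (({N : TF | ∃ Qa Qb Qi Qj Qk : ℤ,
      Wit K n va vb vi vj vk N Qa Qb Qi Qj Qk}).ncard : ℝ)
      ≤ ((E ^ 5 * (C * τ ^ 4 * n ^ 5) : ℕ) : ℝ) := by exact_mod_cast hcard
    _ = (E : ℝ) ^ 5 * ((C : ℝ) * (τ : ℝ) ^ 4 * (n : ℝ) ^ 5) := by push_cast; ring
    _ ≤ (C2 * (n : ℝ) ^ (ε / 10)) ^ 5 * (c * (C1 * c ^ (ε / 16) * (n : ℝ) ^ (ε / 8)) ^ 4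
        * (n : ℝ) ^ 5) := by
        gcongr
    _ = D * ((n : ℝ) ^ (ε / 2) * ((n : ℝ) ^ (ε / 2) * (n : ℝ) ^ 5)) := by
        rw [mul_pow, h5, mul_pow (C1 * c ^ (ε / 16)), h8, hD]
        ring
    _ = D * (n : ℝ) ^ (5 + ε) := by rw [hexp]

end Pool.Helper17.R5
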