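import Pool.Agent.Helper17.R5.Sheet

/-! # The number of forms (row EXTRA) -/

set_option autoImplicit false

namespace Pool.Helper17.R5

theorem det_vv : ∀ i j k : Fin 5, i ≠ j → i ≠ k → j ≠ k → det3 (vv i) (vv j) (vv k) ≠ 0 := by
  decide

/-- **row EXTRA** -/
theorem st_EXTRA (hW : ST_WIT) (hC : ST_CNT) : ST_EXTRA := by
  classical
  intro ε hε C
  obtain ⟨K, hK⟩ := hW C
  have hinj : ∀ (s : Equiv.Perm (Fin 5)) (a b : Fin 5), a ≠ b → s a ≠ s b := fun s a b h h' =>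
    h (s.injective h')
  have hs : ∀ s : Equiv.Perm (Fin 5), ∃ D : ℝ, 0 < D ∧ ∀ n : ℕ, 1 ≤ n →
      {N : TF | ∃ Qa Qb Qi Qj Qk : ℤ, Wit K n (vv (s 0)) (vv (s 1)) (vv (s 2)) (vv (s 3))
        (vv (s 4)) N Qa Qb Qi Qj Qk}.Finite ∧
      ({N : TF | ∃ Qa Qb Qi Qj Qk : ℤ, Wit K n (vv (s 0)) (vv (s 1)) (vv (s 2)) (vv (s 3))
        (vv (s 4)) N Qa Qb Qi Qj Qk}.ncard : ℝ) ≤ D * (n : ℝ) ^ (5 + ε) := fun s =>
    hC _ _ _ _ _ (det_vv _ _ _ (hinj s _ _ (by decide)) (hinj s _ _ (by decide))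
      (hinj s _ _ (by decide)))
      (det_vv _ _ _ (hinj s _ _ (by decide)) (hinj s _ _ (by decide)) (hinj s _ _ (by decide)))
      (det_vv _ _ _ (hinj s _ _ (by decide)) (hinj s _ _ (by decide)) (hinj s _ _ (by decide)))
      ε hε K
  choose D hD0 hD using hs
  refine ⟨∑ s, D s, Finset.sum_pos (fun s _ => hD0 s) Finset.univ_nonempty, fun n hn => ?_⟩
  let cl : Equiv.Perm (Fin 5) → Set TF := fun s => {N : TF | ∃ Qa Qb Qi Qj Qk : ℤ,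
    Wit K n (vv (s 0)) (vv (s 1)) (vv (s 2)) (vv (s 3)) (vv (s 4)) N Qa Qb Qi Qj Qk}
  have hcl : ∀ s, (cl s).Finite ∧ ((cl s).ncard : ℝ) ≤ D s * (n : ℝ) ^ (5 + ε) := fun s =>
    hD s n hn
  have hsub : SN C n ⊆ ⋃ s ∈ (Finset.univ : Finset (Equiv.Perm (Fin 5))), cl s := by
    intro N hN
    obtain ⟨s, Qa, Qb, Qi, Qj, Qk, hw⟩ := hK n hn N hN
    rw [Set.mem_iUnion₂]
    exact ⟨s, Finset.mem_univ _, Qa, Qb, Qi, Qj, Qk, hw⟩
  have hfin : (⋃ s ∈ (Finset.univ : Finset (Equiv.Perm (Fin 5))), cl s).Finite :=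
    Set.Finite.biUnion (Finset.finite_toSet _) fun s _ => (hcl s).1
  refine ⟨hfin.subset hsub, ?_⟩
  have h1 : (SN C n).ncard ≤ ∑ s, (cl s).ncard :=
    (Set.ncard_le_ncard hsub hfin).trans (Finset.set_ncard_biUnion_le _ cl)
  calc ((SN C n).ncard : ℝ) ≤ ((∑ s, (cl s).ncard : ℕ) : ℝ) := by exact_mod_cast h1
    _ = ∑ s, ((cl s).ncard : ℝ) := by push_cast; rfl
    _ ≤ ∑ s, D s * (n : ℝ) ^ (5 + ε) := Finset.sum_le_sum fun s _ => (hcl s).2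
    _ = (∑ s, D s) * (n : ℝ) ^ (5 + ε) := by rw [Finset.sum_mul]

end Pool.Helper17.R5
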