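import Pool.Agent.Helper17.R5.Sheet

/-! # The parameters are determined by ten abscissae (row MULT) -/

set_option autoImplicit false

namespace Pool.Helper17.R5

theorem st_MULT : ST_MULT := by
  intro y y' hy hy' h h1 h2
  have key : ∀ i : Fin 5, i ≠ 0 → y 0 * y i = y' 0 * y' i := by
    intro i hi
    obtain ⟨e1, e2⟩ := h i hi
    unfold xP at e1 e2
    linarith
  have k23 : y 2 * y 3 = y' 2 * y' 3 := by
    unfold xQ at h1 h2
    linarith
  have k2 := key 2 (by decide)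
  have k3 := key 3 (by decide)
  have e0 : y 0 ^ 2 * (y 2 * y 3) = y' 0 ^ 2 * (y 2 * y 3) := by
    have a1 : y 0 ^ 2 * (y 2 * y 3) = (y 0 * y 2) * (y 0 * y 3) := by ring
    have a2 : y' 0 ^ 2 * (y' 2 * y' 3) = (y' 0 * y' 2) * (y' 0 * y' 3) := by ring
    rw [a1, k2, k3, ← a2, k23]
  have hp : y 2 * y 3 ≠ 0 := (mul_pos (hy 2) (hy 3)).ne'
  have e1 : y 0 ^ 2 = y' 0 ^ 2 := mul_right_cancel₀ hp e0
  have e2 : y 0 = y' 0 := (pow_left_inj₀ (hy 0).le (hy' 0).le two_ne_zero).1 e1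
  funext i
  by_cases hi : i = 0
  · rw [hi, e2]
  · have h3 := key i hi
    rw [e2] at h3
    exact mul_left_cancel₀ (hy' 0).ne' h3

end Pool.Helper17.R5
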